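import Pool.Agent.Y916.Kz.Fin

/-!
# The coefficients of the solutions of the KZ equation at almost all tuples of algebraic points

The hyperlogarithms `HL_w(x)` are the iterated integrals from `0` to `x` of the forms `dy / y` (the letter `none`) and
`dy / (1 - α_a y)` (the letter `some a`); the words `w` do not end with `none`. For `r = 1` and `α = 1` they are, up to the
sign, the coefficients of the normalised solution `G_0(x) x^(-A)` of the KZ equation `G' = (A/x + B/(x-1)) G`, that is the
multiple polylogarithms in one variable; the coefficients of the other words are polynomials in these. The coefficients of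
the associator `Φ_KZ` are their regularised values at `1`.

Let `I` be a set of words such that the functions `HL_w`, `w` in `I`, are algebraically independent over `ℚ(x)` (for
distinct nonzero `α_a` for instance the Lyndon words different from `none`, by Radford's theorem and the linear
independence of the hyperlogarithms). Let `x_1, ..., x_k` be algebraic integers of degree at most `m`, each of them in its
own number field, with conjugates at most `T`. For all but a proportion `C T^(-c)` of these tuples the `k (|I| + 1)` numbers
`log x_i`, `HL_w(1 / x_i)` satisfy no nontrivial polynomial relation of degree at most `δ` with coefficients in `L V`, `L` any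
number field of degree at most `d` and `V` any rational vector space of complex numbers of dimension at most `D`: for instance
the space spanned by the monomials of bounded degree in `2 π i` and in the coefficients of `Φ_KZ` (multiple zeta values) of
bounded weight. There is no condition on the heights of the coefficients, and `c`, `C` do not depend on `V`.

The proof uses the theorem on families of G-functions at almost all tuples of algebraic integers (project AF: parts by
helper547, helper185, helper356, helper430, helper977, helper475, helper340; libraries of helper118, helper120, helper113)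
and Galochkin's condition for the hyperlogarithms (library `Pool.Agent.Y119.ML` of helper119).
-/

set_option autoImplicit false

open PowerSeries

namespace Pool.Agent.Results.MP_807c24_nt.AlgebraicTuples

variable {r : ℕ}

/-- The integral `∫_0^x f(y) dy / y` for a power series `f` without constant term. -/
noncomputable def integral (f : ℚ⟦X⟧) : ℚ⟦X⟧ := PowerSeries.mk fun m => coeff m f / m

/-- The geometric series `1 / (1 - n x)`. -/
noncomputable def geometric (n : ℤ) : ℚ⟦X⟧ := PowerSeries.mk fun m => (n : ℚ) ^ m

/-- The hyperlogarithm of a word as a power series in `x`: the iterated integral from `0` to `x` of the forms `dy / y`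
(letter `none`) and `dy / (1 - α_a y)` (letter `some a`); the first letter is the outermost integration. -/
noncomputable def HL (α : Fin r → ℤ) : List (Option (Fin r)) → ℚ⟦X⟧
  | [] => 1
  | none :: w => integral (HL α w)
  | some a :: w => integral (X * geometric (α a) * HL α w)

/-- The sum of the series `f` at the complex number `x`. -/
noncomputable def value (f : ℚ⟦X⟧) (x : ℂ) : ℂ := ∑' m : ℕ, ((coeff m f : ℚ) : ℂ) * x ^ m

/-- The algebraic integers of degree at most `m` all of whose conjugates have absolute value at most `T`. -/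
def integers (m T : ℕ) : Set ℂ :=
  {x | IsIntegral ℤ x ∧ (minpoly ℚ x).natDegree ≤ m ∧ ∀ z : ℂ, Polynomial.aeval z (minpoly ℚ x) = 0 → ‖z‖ ≤ T}

/-- The numbers `log x_i` and `HL_w(1 / x_i)`, `w` in `I`. -/
noncomputable def numbers (α : Fin r → ℤ) (I : Finset (List (Option (Fin r)))) {k : ℕ} (x : Fin k → ℂ) :
    Fin k × Option I → ℂ := fun p => p.2.elim (Complex.log (x p.1)) fun w => value (HL α w) (1 / x p.1)

/-- There is a nontrivial relation of degree `≤ δ` between the numbers `z` with coefficients in `L V`, for some number
field `L` of degree `≤ d`. -/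
def Related (δ d : ℕ) (V : Submodule ℚ ℂ) {ι : Type} (z : ι → ℂ) : Prop :=
  ∃ L : IntermediateField ℚ ℂ, FiniteDimensional ℚ L ∧ Module.finrank ℚ L ≤ d ∧ ∃ P : MvPolynomial ι ℂ, P ≠ 0 ∧
    P.totalDegree ≤ δ ∧ (∀ s, P.coeff s ∈ Submodule.span L (V : Set ℂ)) ∧ MvPolynomial.aeval z P = 0

section proofs

open Pool.Agent.Y119.ML

theorem HL_eq (α : Fin r → ℤ) (w : List (Option (Fin r))) : HL α w = LL α 0 w := by
  have h0 : geo (0 : ℤ) = 1 := by
    have := geo_eq 0
    simpa using this
  induction w with
  | nil => rfl
  | cons o w ih =>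
    cases o with
    | none =>
      rw [HL, LL, UU, ih]
      show In _ = In _
      rw [Nat.cast_zero, h0, one_mul]
    | some a =>
      rw [HL, LL, UU, ih]
      show In (X * geo (α a) * LL α 0 w) = In _
      rw [Nat.cast_zero, h0, mul_one, zero_add]

end proofs

/-- Let `α_1, ..., α_r` be integers and `I` a finite set of words, not ending with `none`, whose hyperlogarithms are
algebraically independent over `ℚ[x]`, and `m ≥ 1`. For all `k`, `δ`, `d`, `D` there are `c > 0` and `C` such that for all
`V` of dimension at most `D` and all `T ≥ 1`, for all but at most a proportion `C T^(-c)` of the `k`-tuples `x` of algebraic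
integers of degree at most `m` with conjugates at most `T`, the numbers `log x_i`, `HL_w(1 / x_i)` are not `Related`. -/
theorem result (α : Fin r → ℤ) (I : Finset (List (Option (Fin r)))) (hw : ∀ w ∈ I, w.getLast? ≠ some none)
    (hI : AlgebraicIndependent (Polynomial ℚ) fun w : I => HL α w) (k m : ℕ) (hm : 1 ≤ m) (δ d D : ℕ) :
    ∃ c : ℝ, 0 < c ∧ ∃ C : ℝ, ∀ V : Submodule ℚ ℂ, Module.Finite ℚ V → Module.finrank ℚ V ≤ D → ∀ T : ℕ, 1 ≤ T →
      (integers m T).Finite ∧
      ({x : Fin k → ℂ | (∀ i, x i ∈ integers m T) ∧ Related δ d V (numbers α I x)}.ncard : ℝ) ≤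
        C * (T : ℝ) ^ (-c) * ((integers m T).ncard : ℝ) ^ k := by
  classical
  set W := I.sup List.length with hW
  have hlen : ∀ w ∈ I, w.length ≤ W := fun w h => Finset.le_sup (f := List.length) h
  let J : Finset (Pool.Agent.Y119.ML.WI r W) := I.attach.image fun w => ⟨w.1, hlen w.1 w.2, hw w.1 w.2⟩
  have hJ : ∀ j ∈ J, j.1 ∈ I := by
    intro j hj
    obtain ⟨w, -, rfl⟩ := Finset.mem_image.1 hj
    exact w.2
  have hJ2 : ∀ w : I, (⟨w.1, hlen w.1 w.2, hw w.1 w.2⟩ : Pool.Agent.Y119.ML.WI r W) ∈ J := fun w =>
    Finset.mem_image.2 ⟨w, Finset.mem_attach _ _, rfl⟩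
  have hind : AlgebraicIndependent (Polynomial ℚ) fun j : J => Pool.Agent.Y119.ML.LL α 0 j.1.1 := by
    have h1 := hI.comp (fun j : J => (⟨j.1.1, hJ j.1 j.2⟩ : I)) (fun a b hab => by
      have h2 := congrArg (fun j : I => (j : List (Option (Fin r)))) hab
      exact Subtype.ext (Subtype.ext h2))
    convert h1 using 1
    funext j
    exact (HL_eq α j.1.1).symm
  obtain ⟨c₁, hc₁, h₁⟩ := Pool.Agent.Y916.Sl.many m hm
  obtain ⟨c₂, hc₂, C₂, hC₂, h₂⟩ := Pool.Agent.Y916.Kz.tup α J hind k m δ d D
  refine ⟨c₂, hc₂, C₂ / c₁ ^ k, fun V hV hVD T hT => ⟨Pool.Agent.Y916.Sl.sint_fin m T, ?_⟩⟩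
  obtain ⟨hf, hle⟩ := h₂ V hV hVD T hT
  refine le_trans ?_ (hle.trans (Pool.Agent.Y916.Sl.prop_bound hc₁ hC₂ hT (h₁ T hT)))
  refine Nat.cast_le.2 (Set.ncard_le_ncard ?_ hf)
  rintro x ⟨hx1, L, hL1, hL2, P, hP0, hPd, hPc, hPv⟩
  refine ⟨fun i => Pool.Agent.Y916.Sl.SInt.aint (hx1 i), L, hL1, hL2, ?_⟩
  let θ : Option I → Option J := fun o => o.map fun w => ⟨_, hJ2 w⟩
  have hθ : Function.Injective θ := by
    refine Option.map_injective fun a b hab => ?_
    have h1 := congrArg (fun j : J => j.1.1) hab
    exact Subtype.ext h1
  let φ : Fin k × Option I → Fin k × Option J := fun p => (p.1, θ p.2)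
  have hφ : Function.Injective φ := by
    intro a b hab
    simp only [φ, Prod.mk.injEq] at hab
    exact Prod.ext hab.1 (hθ hab.2)
  refine ⟨MvPolynomial.rename φ P, ?_, (MvPolynomial.totalDegree_rename_le _ _).trans hPd, ?_, ?_⟩
  · intro h0
    exact hP0 (MvPolynomial.rename_injective φ hφ (by rw [h0, map_zero]))
  · intro t
    by_cases ht : ∃ y, Finsupp.mapDomain φ y = t
    · obtain ⟨y, rfl⟩ := ht
      rw [MvPolynomial.coeff_rename_mapDomain φ hφ]
      exact hPc y
    · rw [MvPolynomial.coeff_rename_eq_zero φ P t (fun y hy => absurd ⟨y, hy⟩ ht)]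
      exact Submodule.zero_mem _
  · rw [MvPolynomial.aeval_rename, ← hPv]
    congr 2
    funext p
    obtain ⟨i, o⟩ := p
    cases o with
    | none => rfl
    | some w =>
      show Pool.Agent.Y916.Al.evc (1 / x i) (Pool.Agent.Y119.ML.LL α 0 w.1) = value (HL α w) (1 / x i)
      rw [← HL_eq]
      rfl

end Pool.Agent.Results.MP_807c24_nt.AlgebraicTuples
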