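import Pool.Agent.Y916.Kz.Win

/-!
# The coefficients of the solutions of the KZ equation in windows around every algebraic point

The hyperlogarithms `HL_w(x)` are the iterated integrals from `0` to `x` of the forms `dy / y` (the letter `none`) and
`dy / (1 - α_a y)` (the letter `some a`); the words `w` do not end with `none`. For `r = 1` and `α = 1` they are, up to the
sign, the coefficients of the normalised solution `G_0(x) x^(-A)` of the KZ equation `G' = (A/x + B/(x-1)) G`, that is the
multiple polylogarithms in one variable; the coefficients of the other words are polynomials in these. The coefficients of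
the associator `Φ_KZ` are their regularised values at `1`.

Let `I` be a finite set of words such that the functions `HL_w`, `w` in `I`, are algebraically independent over `ℚ(x)` (for
distinct nonzero `α_a` for instance the Lyndon words different from `none`, by Radford's theorem and the linear
independence of the hyperlogarithms). Let `Ω` be a finite family of fixed constants, for instance the coefficients of `Φ_KZ`
of bounded weight (multiple zeta values), and `ρ` the transcendence degree of the field generated by `2 π i` and `Ω`. Around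
every algebraic number `ξ` of degree at most `m`, of height at most `|ξ|^A` and of absolute value at least `(H + 2)^E`, and
for all complex numbers `w_1, ..., w_q`, there are at most `ρ + q + 1` exceptional integers `u` in `[1, H]`: for different
non-exceptional `u_1, ..., u_k` and `x_j = ξ - G u_j` every polynomial relation of degree at most `δ` over a number field of
degree at most `d` (of any height) between `Ω`, `w` and the `k (|I| + 1)` numbers `log x_j` (any values), `HL_w(1 / x_j)` is
an identity in these last numbers.

The proof uses the theorem on families of G-functions in windows (project AF: parts by helper547, helper185, helper356,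
helper430, helper977, helper475, helper340; libraries of helper118, helper120, helper113) and Galochkin's condition for the
hyperlogarithms (library `Pool.Agent.Y119.ML` of helper119).
-/

set_option autoImplicit false

open PowerSeries

namespace Pool.Agent.Results.MP_807c24_nt.AlgebraicWindows

variable {r : ℕ}

/-- The integral `∫_0^x f(y) dy / y` for a power series `f` without constant term. -/
noncomputable def integral (f : ℚ⟦X⟧) : ℚ⟦X⟧ := PowerSeries.mk fun m => coeff m f / m

/-- The geometric series `1 / (1 - n x)`. -/
noncomputable def geometric (n : ℤ) : ℚ⟦X⟧ := PowerSeries.mk fun m => (n : ℚ) ^ m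

/-- The hyperlogarithm of a word as a power series in `x`: the iterated integral from `0` to `x` of the forms `dy / y`
(letter `none`) and `dy / (1 - α_a y)` (letter `some a`); the first letter is the outermost integration. -/
noncomputable def HL (α : Fin r → ℤ) : List (Option (Fin r)) → ℚ⟦X⟧
  | [] => 1
  | none :: w => integral (HL α w)
  | some a :: w => integral (X * geometric (α a) * HL α w)

/-- The sum of the series `f` at the complex number `x`. -/
noncomputable def value (f : ℚ⟦X⟧) (x : ℂ) : ℂ := ∑' m : ℕ, ((coeff m f : ℚ) : ℂ) * x ^ m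

/-- The numbers `ℓ_j` (the chosen logarithms of `x_j`) and `HL_w(1 / x_j)`, `w` in `I`. -/
noncomputable def numbers (α : Fin r → ℤ) (I : Finset (List (Option (Fin r)))) {k : ℕ} (x ℓ : Fin k → ℂ) :
    Fin k × Option I → ℂ := fun p => p.2.elim (ℓ p.1) fun w => value (HL α w) (1 / x p.1)

/-- Every polynomial relation of degree `≤ δ` over a number field of degree `≤ d` between the constants `c` and the numbers
`z` is an identity in the numbers `z`. -/
def Free (δ d : ℕ) {υ ι : Type} (c : υ → ℂ) (z : ι → ℂ) : Prop :=
  ∀ L : IntermediateField ℚ ℂ, FiniteDimensional ℚ L → Module.finrank ℚ L ≤ d →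
  ∀ P : MvPolynomial (υ ⊕ ι) L, P.totalDegree ≤ δ → MvPolynomial.aeval (Sum.elim c z) P = 0 →
  ∀ y : ι → ℂ, MvPolynomial.aeval (Sum.elim c y) P = 0

section proofs

open Pool.Agent.Y119.ML

theorem HL_eq (α : Fin r → ℤ) (w : List (Option (Fin r))) : HL α w = LL α 0 w := by
  have h0 : geo (0 : ℤ) = 1 := by
    have := geo_eq 0
    simpa using this
  induction w with
  | nil => rfl
  | cons o w ih =>
    cases o with
    | none =>
      rw [HL, LL, UU, ih]
      show In _ = In _
      rw [Nat.cast_zero, h0, one_mul]
    | some a =>
      rw [HL, LL, UU, ih]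
      show In (X * geo (α a) * LL α 0 w) = In _
      rw [Nat.cast_zero, h0, mul_one, zero_add]

end proofs

/-- Let `α_1, ..., α_r` be integers and `I` a finite set of words, not ending with `none`, whose hyperlogarithms are
algebraically independent over `ℚ[x]`. There is `G₀` such that for all `G ≥ G₀`, all families `Ω` of `p` complex numbers and
all `q`, `k`, `m`, `d`, `δ`, `A` there is `E` such that for all `H`, all complex `ξ` with `|ξ| ≥ (H + 2)^E` which are roots of
a nonzero integral polynomial of degree at most `m` with coefficients at most `|ξ|^A`, and all `w_1, ..., w_q` there is a set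
`S` of at most `ρ + q + 1` integers, `ρ` the transcendence degree of the field generated by `2 π i` and `Ω`, such that for
different `u_1, ..., u_k` in `[1, H]` outside `S` and `x_j = ξ - G u_j` the numbers `log x_j` (any values) and
`HL_w(1 / x_j)`, `w` in `I`, are `Free` over `Ω` and `w`. -/
theorem result (α : Fin r → ℤ) (I : Finset (List (Option (Fin r)))) (hw : ∀ w ∈ I, w.getLast? ≠ some none)
    (hI : AlgebraicIndependent (Polynomial ℚ) fun w : I => HL α w) :
    ∃ G₀ : ℕ, ∀ G : ℕ, G₀ ≤ G → ∀ (p : ℕ) (Ω : Fin p → ℂ) (q k m d δ A : ℕ), ∃ E : ℕ, ∀ (H : ℕ) (ξ : ℂ),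
      ((H : ℝ) + 2) ^ E ≤ ‖ξ‖ →
      (∃ f : Polynomial ℤ, f ≠ 0 ∧ f.natDegree ≤ m ∧ (∀ j, |(f.coeff j : ℝ)| ≤ ‖ξ‖ ^ A) ∧
        Polynomial.aeval ξ f = 0) →
      ∀ w : Fin q → ℂ, ∃ S : Finset ℕ,
      (S.card : Cardinal) ≤ Algebra.trdeg ℚ (IntermediateField.adjoin ℚ (insert (2 * Real.pi * Complex.I) (Set.range Ω))) +
        q + 1 ∧
      ∀ u : Fin k → ℕ, Function.Injective u → (∀ j, 1 ≤ u j ∧ u j ≤ H ∧ u j ∉ S) →
      ∀ ℓ : Fin k → ℂ, (∀ j, Complex.exp (ℓ j) = ξ - ((G * u j : ℕ) : ℂ)) →
      Free δ d (Sum.elim Ω w) (numbers α I (fun j => ξ - ((G * u j : ℕ) : ℂ)) ℓ) := by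
  classical
  set W := I.sup List.length with hW
  have hlen : ∀ w ∈ I, w.length ≤ W := fun w h => Finset.le_sup (f := List.length) h
  let J : Finset (Pool.Agent.Y119.ML.WI r W) := I.attach.image fun w => ⟨w.1, hlen w.1 w.2, hw w.1 w.2⟩
  have hJ : ∀ j ∈ J, j.1 ∈ I := by
    intro j hj
    obtain ⟨w, -, rfl⟩ := Finset.mem_image.1 hj
    exact w.2
  have hJ2 : ∀ w : I, (⟨w.1, hlen w.1 w.2, hw w.1 w.2⟩ : Pool.Agent.Y119.ML.WI r W) ∈ J := fun w =>
    Finset.mem_image.2 ⟨w, Finset.mem_attach _ _, rfl⟩
  have hind : AlgebraicIndependent (Polynomial ℚ) fun j : J => Pool.Agent.Y119.ML.LL α 0 j.1.1 := by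
    have h1 := hI.comp (fun j : J => (⟨j.1.1, hJ j.1 j.2⟩ : I)) (fun a b hab => by
      have h2 := congrArg (fun j : I => (j : List (Option (Fin r)))) hab
      exact Subtype.ext (Subtype.ext h2))
    convert h1 using 1
    funext j
    exact (HL_eq α j.1.1).symm
  obtain ⟨G₀, -, hG⟩ := Pool.Agent.Y916.Kz.winK α J hind
  refine ⟨G₀, fun G hGG p Ω q k m d δ A => ?_⟩
  obtain ⟨E, hE⟩ := hG G hGG p Ω q k m d δ A
  refine ⟨E, fun H ξ hξ hHt w => ?_⟩
  obtain ⟨S, hS, h2⟩ := hE H ξ hξ hHt w
  refine ⟨S, hS, fun u hu hub ℓ hℓ L hL1 hL2 P hPd hP0 y => ?_⟩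
  let θ : Option I → Option J := fun o => o.map fun w => ⟨_, hJ2 w⟩
  have hθ : Function.Injective θ := by
    refine Option.map_injective fun a b hab => ?_
    have h1 := congrArg (fun j : J => j.1.1) hab
    exact Subtype.ext h1
  let φ : Fin k × Option I → Fin k × Option J := fun p => (p.1, θ p.2)
  have hφ : Function.Injective φ := by
    intro a b hab
    simp only [φ, Prod.mk.injEq] at hab
    exact Prod.ext hab.1 (hθ hab.2)
  have h3 := h2 u hu hub ℓ hℓ L hL1 hL2 (MvPolynomial.rename (Sum.map id φ) P)
    ((MvPolynomial.totalDegree_rename_le _ _).trans hPd) (by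
      rw [MvPolynomial.aeval_rename, ← hP0]
      congr 2
      funext x
      rcases x with c | ⟨i, o⟩
      · rfl
      · cases o with
        | none => rfl
        | some w =>
          show Pool.Agent.Y916.Al.evc (1 / (ξ - ((G * u i : ℕ) : ℂ))) (Pool.Agent.Y119.ML.LL α 0 w.1) =
            value (HL α w) (1 / (ξ - ((G * u i : ℕ) : ℂ)))
          rw [← HL_eq]
          rfl) (Function.extend φ y 0)
  rw [MvPolynomial.aeval_rename] at h3
  rw [← h3]
  congr 2
  funext x
  rcases x with c | x
  · rfl
  · exact (hφ.extend_apply y 0 x).symm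

end Pool.Agent.Results.MP_807c24_nt.AlgebraicWindows
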