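import Pool.Agent.Y900.PV.NF
import Pool.Agent.Y900.HY.Log
import Pool.Agent.Y124.NFPoly

/-!
# The KZ system in several variables at algebraic points, relative to arbitrary constants

The coefficients `G_w` of a solution `G = ∑ G_w w` of the KZ equation `G' = (A / z + B / (z - 1)) G` with `G_∅ = 1` are
iterated primitives: `G_(Aw)' = G_w / z`, `G_(Bw)' = G_w / (z - 1)`. The KZ system on the moduli space of `n + 3` points
on the line, with coordinates `x_1, …, x_n` different from `0`, `1` and from each other, is solved by products of such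
series `G^(j)`, `j = 1, …, n`, where `G^(j)` is a function of `x_j, …, x_n`, and in the variable `x_j` a solution of
`∂G^(j) / ∂x_j = (A_j / x_j + B_j / (x_j - 1) + ∑_(i > j) C_ij / (x_j - x_i)) G^(j)`;
the coefficients are the multiple polylogarithms in several variables. The KZ associator is the quotient of the solutions
normalised at `0` and at `1`. The transcendence conjecture says that the only algebraic relations between its
coefficients and `2πi` are the associator relations, and in particular group-likeness (the shuffle relations).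

We consider the solutions at algebraic points instead of tangential base points, relative to arbitrary constants `ξ`, for
instance all coefficients of the KZ associator in bounded degrees and the powers of `2πi`: there are no relations except
those between the constants, and the shuffle relations, in bounded degree and for heights up to `T ^ A`, even
approximate ones, at all but `C T ^ ε N ^ (n - 1)` of the points of height at most `T` of a number field, `N ^ n` being
the number of all points; this holds uniformly in the number fields of degree at most `m`, in the constants, and in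
arbitrary further complex parameters (for instance the positions of further singularities of the system).

The general result concerns arbitrary iterated primitives of algebraic differentials in fibrations: functions `I_(j,w)`,
`w` a word, of the variables `x_i`, `i ≥ j`, and of parameters `s`, which are iterated primitives with respect to `x_j` of
differentials `u_(j,i) dx_j`, algebraic in `x_j`, no combination of which is exact.
-/

set_option autoImplicit false

open NumberField
open scoped Topology

namespace Pool.Agent.Results.MP_807c24_nt.KZSystem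

/-- `g` is an algebraic function near `p`: `P(z, g(z)) = 0` near `p` for some polynomial `P ≠ 0` in two variables. -/
def AlgebraicAt (p : ℂ) (g : ℂ → ℂ) : Prop :=
  ∃ P : MvPolynomial (Fin 2) ℂ, P ≠ 0 ∧ ∀ᶠ z in 𝓝 p, MvPolynomial.eval ![z, g z] P = 0

/-- For `j < n` and words `w` in the letters `κ j` the functions `I j w` of the parameters `s ∈ ℂ^q` and of `x ∈ ℂ^n` are
continuous on the open set `U`, depend only on `s` and on the coordinates `x_i`, `i ≥ j`, and are iterated primitives
with respect to `x_j` of the differentials `u j i dx_j`; these are algebraic in `x_j`, and no nontrivial combination of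
them (for fixed `s` and fixed other coordinates) is the differential of an algebraic function of `x_j`. -/
structure Family {q n : ℕ} (κ : Fin n → Type) [∀ j, Fintype (κ j)] (U : Set ((Fin q → ℂ) × (Fin n → ℂ)))
    (u : ∀ j, κ j → (Fin q → ℂ) → (Fin n → ℂ) → ℂ) (I : ∀ j, List (κ j) → (Fin q → ℂ) → (Fin n → ℂ) → ℂ) : Prop where
  isOpen : IsOpen U
  analytic : ∀ j i s x, (s, x) ∈ U → AnalyticAt ℂ (fun t => u j i s (Function.update x j t)) (x j)
  algebraic : ∀ j i s x, (s, x) ∈ U → AlgebraicAt (x j) fun t => u j i s (Function.update x j t)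
  not_exact : ∀ j s x, (s, x) ∈ U → ∀ (c : κ j → ℂ) (g : ℂ → ℂ), AlgebraicAt (x j) g →
    (∀ᶠ t in 𝓝 (x j), HasDerivAt g (∑ i, c i * u j i s (Function.update x j t)) t) → c = 0
  nil : ∀ j s x, (s, x) ∈ U → I j [] s x = 1
  cons : ∀ j i w s x, (s, x) ∈ U →
    HasDerivAt (fun t => I j (i :: w) s (Function.update x j t)) (u j i s x * I j w s x) (x j)
  continuous : ∀ j w, ContinuousOn (fun y : (Fin q → ℂ) × (Fin n → ℂ) => I j w y.1 y.2) U
  later : ∀ j w s x x', (s, x) ∈ U → (s, x') ∈ U → (∀ i, j ≤ i → x i = x' i) → I j w s x = I j w s x'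

/-- the words of length at most `W`: a length and the letters -/
abbrev Words (κ : Type) (W : ℕ) : Type := (r : Fin (W + 1)) × (Fin r → κ)

/-- The elements of the number field `F` with image in `Q` which are quotients of two integers of `F` all of whose
conjugates have absolute value at most `T`. -/
def Points (F : Type) [Field F] [NumberField F] (ι : F →+* ℂ) (Q : Set ℂ) (T : ℝ) : Set F :=
  {x | ι x ∈ Q ∧ ∃ a b : 𝓞 F, b ≠ 0 ∧ (∀ φ : F →+* ℂ, ‖φ a‖ ≤ T ∧ ‖φ b‖ ≤ T) ∧ x = a / b}

/-- The points `x` of `F^n` with coordinates in `Points` and with image in `L` (for the value `s` of the parameters) for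
which there is a linear combination of the products `∏_j I_(j,w_j)(s, x)`, `w_j` of length at most `W`, with coefficients
of the form `∑ ξ_k ι(c_k)`, where the `c_k` are integers of `F` all of whose conjugates have absolute value at most
`T ^ A`, whose absolute value is at most `T ^ (-B)` times the absolute value of one of its nonzero coefficients. -/
def Exceptional {q n : ℕ} {κ : Fin n → Type} [∀ j, Fintype (κ j)] (I : ∀ j, List (κ j) → (Fin q → ℂ) → (Fin n → ℂ) → ℂ)
    (W : ℕ) {g : ℕ} (F : Type) [Field F] [NumberField F] (ι : F →+* ℂ) (ξ : Fin g → ℂ) (s : Fin q → ℂ)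
    (L : Set ((Fin q → ℂ) × (Fin n → ℂ))) (A B T : ℝ) : Set (Fin n → F) :=
  {x | (∀ j, x j ∈ Points F ι Set.univ T) ∧ (s, fun j => ι (x j)) ∈ L ∧ ∃ c : (∀ j, Words (κ j) W) → Fin g → 𝓞 F,
    (∀ w k (φ : F →+* ℂ), ‖φ (c w k)‖ ≤ T ^ A) ∧ ∃ w₀, ∑ k, ξ k * ι (c w₀ k) ≠ 0 ∧
      ‖∑ w, (∑ k, ξ k * ι (c w k)) * ∏ j, I j (List.ofFn (w j).2) s fun i => ι (x i)‖ ≤
        T ^ (-B) * ‖∑ k, ξ k * ι (c w₀ k)‖}

/-- the letters of the KZ system on the moduli space of `n + 3` points: the singularities `0` and `1`, and the later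
variables -/
abbrev KZLetter (n : ℕ) (j : Fin n) : Type := Fin 2 ⊕ {i : Fin n // j < i}

/-- the singularities of the KZ system in the variable `x_j` -/
def kzSing {n : ℕ} (j : Fin n) (i : KZLetter n j) (x : Fin n → ℂ) : ℂ :=
  match i with
  | Sum.inl a => if a = 0 then 0 else 1
  | Sum.inr i => x i

/-- words as lists -/
def wE (κ : Type) [Fintype κ] [DecidableEq κ] (W : ℕ) : Words κ W ≃ Pool.Agent.Y900.HY.Wd κ W where
  toFun x := ⟨List.ofFn x.2, by
    rw [Pool.Agent.Y119.UP.mem_wd, List.length_ofFn]
    exact Nat.lt_succ_iff.1 x.1.2⟩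
  invFun w := ⟨⟨w.1.length, Nat.lt_succ_iff.2 ((Pool.Agent.Y119.UP.mem_wd _ _).1 w.2)⟩, w.1.get⟩
  left_inv x := by
    obtain ⟨⟨l, hl⟩, f⟩ := x
    have h1 := (List.equivSigmaTuple (α := κ)).right_inv ⟨l, f⟩
    simp only [List.equivSigmaTuple] at h1
    rw [Sigma.mk.injEq] at h1
    refine Sigma.ext (Fin.ext h1.1) ?_
    exact h1.2
  right_inv w := Subtype.ext (List.ofFn_get w.1)

/-- hyperlogarithms in several variables form families -/
theorem family_of_sing {q n : ℕ} (κ : Fin n → Type) [∀ j, Fintype (κ j)] (U : Set ((Fin q → ℂ) × (Fin n → ℂ)))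
    (hU : IsOpen U) (a : ∀ j, κ j → (Fin q → ℂ) → (Fin n → ℂ) → ℂ)
    (ha : ∀ j i s x t, a j i s (Function.update x j t) = a j i s x)
    (hinj : ∀ j s x, (s, x) ∈ U → Function.Injective fun i => a j i s x)
    (hne : ∀ j i s x, (s, x) ∈ U → x j ≠ a j i s x)
    (I : ∀ j, List (κ j) → (Fin q → ℂ) → (Fin n → ℂ) → ℂ) (h0 : ∀ j s x, (s, x) ∈ U → I j [] s x = 1)
    (h1 : ∀ j i w s x, (s, x) ∈ U →
      HasDerivAt (fun t => I j (i :: w) s (Function.update x j t)) (1 / (x j - a j i s x) * I j w s x) (x j))
    (h2 : ∀ j w, ContinuousOn (fun y : (Fin q → ℂ) × (Fin n → ℂ) => I j w y.1 y.2) U)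
    (h3 : ∀ j w s x x', (s, x) ∈ U → (s, x') ∈ U → (∀ i, j ≤ i → x i = x' i) → I j w s x = I j w s x') :
    Family κ U (fun j i s x => 1 / (x j - a j i s x)) I := by
  classical
  have hg : ∀ j s x, (s, x) ∈ U → Pool.Agent.Y900.HY.Good (x j) fun (i : κ j) t => 1 / (t - a j i s x) :=
    fun j s x hx => Pool.Agent.Y900.HY.good_log (fun i => a j i s x) (hinj j s x hx) (x j) fun i => hne j i s x hx
  have he : ∀ j (i : κ j) s x, (fun t => 1 / (Function.update x j t j - a j i s (Function.update x j t))) =
      fun t => 1 / (t - a j i s x) := by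
    intro j i s x
    funext t
    rw [Function.update_self, ha]
  refine ⟨hU, ?_, ?_, ?_, h0, h1, h2, h3⟩
  · intro j i s x hx
    rw [he]
    exact (hg j s x hx).an i
  · intro j i s x hx
    rw [he]
    exact (hg j s x hx).alg i
  · intro j s x hx c g hgalg hder
    refine (hg j s x hx).prim c g hgalg ?_
    filter_upwards [hder] with t ht
    refine ht.congr_deriv (Finset.sum_congr rfl fun i _ => ?_)
    rw [Function.update_self, ha]

/-- **Main result.** 1. Let the `I j w` be a family on `U`, `L` a compact subset of `U`, and let `ρ` be a bound for the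
coordinates `x_j` on `L`. For all `m`, `W`, `g`, `A` and `ε > 0` there are `B`, `C`, `T₀` such that for every number field
`F` of degree at most `m`, every embedding of `F` in `ℂ`, all complex numbers `ξ_1, …, ξ_g`, all values `s` of the
parameters and all `T ≥ T₀` the number of exceptional points of `F^n` is at most `C T^ε N^(n - 1)`, where `N` is the
number of points of `F` in the disc of radius `ρ`. 2. Let `a j i` be functions which do not depend on `x_j`, such that on
`U` the `a j i`, for fixed `j`, are different from each other and from `x_j`. Then continuous iterated primitives of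
the forms `dx_j / (x_j - a j i)` which depend on the later variables form a family. 3. This applies to the KZ system on
the set of all `x` with coordinates different from `0`, `1` and from each other. -/
theorem result :
    (∀ (q n : ℕ) (κ : Fin n → Type) [∀ j, Fintype (κ j)] (U : Set ((Fin q → ℂ) × (Fin n → ℂ)))
      (u : ∀ j, κ j → (Fin q → ℂ) → (Fin n → ℂ) → ℂ) (I : ∀ j, List (κ j) → (Fin q → ℂ) → (Fin n → ℂ) → ℂ),
      Family κ U u I → ∀ L : Set ((Fin q → ℂ) × (Fin n → ℂ)), IsCompact L → L ⊆ U →
      ∀ ρ : ℝ, (∀ y ∈ L, ∀ j, ‖y.2 j‖ ≤ ρ) → ∀ (m W g : ℕ) (A ε : ℝ), 0 < ε →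
      ∃ B C T₀ : ℝ, ∀ (F : Type) [Field F] [NumberField F], Module.finrank ℚ F ≤ m → ∀ (ι : F →+* ℂ) (ξ : Fin g → ℂ)
        (s : Fin q → ℂ) (T : ℝ), T₀ ≤ T → (Exceptional I W F ι ξ s L A B T).Finite ∧
          ((Exceptional I W F ι ξ s L A B T).ncard : ℝ) ≤
            C * T ^ ε * ((Points F ι (Metric.closedBall 0 ρ) T).ncard : ℝ) ^ (n - 1)) ∧
    (∀ (q n : ℕ) (κ : Fin n → Type) [∀ j, Fintype (κ j)] (U : Set ((Fin q → ℂ) × (Fin n → ℂ))), IsOpen U →
      ∀ a : ∀ j, κ j → (Fin q → ℂ) → (Fin n → ℂ) → ℂ, (∀ j i s x t, a j i s (Function.update x j t) = a j i s x) →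
      (∀ j s x, (s, x) ∈ U → Function.Injective fun i => a j i s x) → (∀ j i s x, (s, x) ∈ U → x j ≠ a j i s x) →
      ∀ I : ∀ j, List (κ j) → (Fin q → ℂ) → (Fin n → ℂ) → ℂ, (∀ j s x, (s, x) ∈ U → I j [] s x = 1) →
      (∀ j i w s x, (s, x) ∈ U →
        HasDerivAt (fun t => I j (i :: w) s (Function.update x j t)) (1 / (x j - a j i s x) * I j w s x) (x j)) →
      (∀ j w, ContinuousOn (fun y : (Fin q → ℂ) × (Fin n → ℂ) => I j w y.1 y.2) U) →
      (∀ j w s x x', (s, x) ∈ U → (s, x') ∈ U → (∀ i, j ≤ i → x i = x' i) → I j w s x = I j w s x') →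
      Family κ U (fun j i s x => 1 / (x j - a j i s x)) I) ∧
    (∀ (q n : ℕ) (U : Set ((Fin q → ℂ) × (Fin n → ℂ))), IsOpen U →
      (∀ y ∈ U, Function.Injective y.2 ∧ ∀ j, y.2 j ≠ 0 ∧ y.2 j ≠ 1) →
      ∀ I : ∀ j : Fin n, List (KZLetter n j) → (Fin q → ℂ) → (Fin n → ℂ) → ℂ, (∀ j s x, (s, x) ∈ U → I j [] s x = 1) →
      (∀ j i w s x, (s, x) ∈ U →
        HasDerivAt (fun t => I j (i :: w) s (Function.update x j t)) (1 / (x j - kzSing j i x) * I j w s x) (x j)) →
      (∀ j w, ContinuousOn (fun y : (Fin q → ℂ) × (Fin n → ℂ) => I j w y.1 y.2) U) →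
      (∀ j w s x x', (s, x) ∈ U → (s, x') ∈ U → (∀ i, j ≤ i → x i = x' i) → I j w s x = I j w s x') →
      Family (KZLetter n) U (fun j i _ x => 1 / (x j - kzSing j i x)) I) := by
  classical
  refine ⟨?_, ?_, ?_⟩
  · intro q n κ _ U u I hI L hL hLU ρ hρ m W g A ε hε
    obtain ⟨B, C, T₀, hC, hT₀, H⟩ := Pool.Agent.Y900.PV.main_multi hI.isOpen (κ := κ) (u := u) (I := I)
      ⟨fun j y hy => hI.nil j _ _ hy, fun j i w y hy => hI.cons j i w _ _ hy, hI.continuous, hI.later,
        fun j y hy => ⟨fun i => hI.analytic j i _ _ hy, fun i => hI.algebraic j i _ _ hy, hI.not_exact j _ _ hy⟩⟩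
      hL hLU (Metric.closedBall 0 ρ) (fun y hy i => by
        rw [mem_closedBall_zero_iff]
        exact hρ y hy i) (Fin g) m W A ε hε
    refine ⟨B, C, T₀, fun F _ _ hF ι ξ s T hT => ?_⟩
    have hT0 : 0 ≤ T := by linarith
    have hP : ∀ Q : Set ℂ, Points F ι Q T = {x : F | Pool.Agent.Y120.HtLe F T x ∧ ι x ∈ Q} := by
      intro Q
      ext x
      constructor
      · rintro ⟨h1, a, b, hb, hab, hx⟩
        exact ⟨⟨a, b, hb, Pool.Agent.Y120.house_le F hT0 fun φ => (hab φ).1,
          Pool.Agent.Y120.house_le F hT0 fun φ => (hab φ).2, hx⟩, h1⟩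
      · rintro ⟨⟨a, b, hb, ha, hb', hx⟩, h1⟩
        exact ⟨h1, a, b, hb, fun φ => ⟨(Pool.Agent.Y120.house_ge F _ φ).trans ha,
          (Pool.Agent.Y120.house_ge F _ φ).trans hb'⟩, hx⟩
    have hE := H F hF ι ξ s T hT (Exceptional I W F ι ξ s L A B T) (by
      rintro x ⟨hx, hxL, c, hc, w₀, hw₀, hs⟩
      refine ⟨fun j => ?_, hxL, fun w k => c (fun j => (wE (κ j) W).symm (w j)) k, fun w k φ => hc _ k φ,
        fun j => wE (κ j) W (w₀ j), ?_, ?_⟩
      · have h1 := hx j
        rw [hP] at h1
        exact h1.1
      · simp only [Equiv.symm_apply_apply]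
        exact hw₀
      · simp only [Equiv.symm_apply_apply]
        refine le_trans (le_of_eq ?_) hs
        congr 1
        rw [← (Equiv.piCongrRight fun j => wE (κ j) W).sum_comp]
        refine Finset.sum_congr rfl fun w _ => ?_
        simp only [Equiv.piCongrRight_apply, Pi.map_apply, Equiv.symm_apply_apply]
        rfl)
    rw [hP]
    exact hE
  · intro q n κ _ U hU a ha hinj hne I h0 h1 h2 h3
    exact family_of_sing κ U hU a ha hinj hne I h0 h1 h2 h3
  · intro q n U hU hUx I h0 h1 h2 h3
    refine family_of_sing (KZLetter n) U hU (fun j i _ x => kzSing j i x) ?_ ?_ ?_ I h0 h1 h2 h3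
    · rintro j (a | ⟨i, hi⟩) s x t
      · rfl
      · exact Function.update_of_ne hi.ne' _ _
    · intro j s x hx
      have hx0 := (hUx _ hx).2
      rintro (a | ⟨i, hi⟩) (b | ⟨i', hi'⟩) hab
      · simp only [kzSing] at hab
        fin_cases a <;> fin_cases b <;> simp_all
      · simp only [kzSing] at hab
        exfalso
        split_ifs at hab
        · exact (hx0 i').1 hab.symm
        · exact (hx0 i').2 hab.symm
      · simp only [kzSing] at hab
        exfalso
        split_ifs at hab
        · exact (hx0 i).1 hab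
        · exact (hx0 i).2 hab
      · have h4 : i = i' := (hUx _ hx).1 hab
        subst h4
        rfl
    · rintro j (a | ⟨i, hi⟩) s x hx
      · simp only [kzSing]
        split_ifs
        · exact ((hUx _ hx).2 j).1
        · exact ((hUx _ hx).2 j).2
      · intro hcon
        exact hi.ne ((hUx _ hx).1 hcon)

end Pool.Agent.Results.MP_807c24_nt.KZSystem
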